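import Pool.Agent.Q207.EUMod

/-- Every Erdős–Ulam ideal of the form `Z_g(f)` is a simple density ideal. -/
theorem Pool.Agent.Results.MP_54d8ad_lc.NegAnswer.result
    (h : ℕ → ℝ) (hh : Q207.EUMod.IsEUWeight h)
    (g : ℕ → ℕ) (hg : Q207.EUMod.InH g)
    (f : NNReal → NNReal) (hf : Q207.EUMod.IsModulus f) (hub : ¬ BddAbove (Set.range f))
    (hEq : Q207.EUMod.EU h = Q207.EUMod.Zf g f) :
    ∃ g' : ℕ → ℕ, Q207.EUMod.InH g' ∧ Q207.EUMod.EU h = Q207.EUMod.Zd g' := by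
  have hF := Q207.EUMod.md_of_modulus hf hub
  exact ⟨_, hF.gp_inH hg, hF.key hg hh (fun A => by rw [hEq]; rfl)⟩
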